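import Pool.Agent.Lib.MP_dce2ef.Square

set_option autoImplicit false

open Set Topology

namespace Pool.Agent.Results.MP_dce2ef_gt.GasketWedge

/-- Covering dimension at most n: every finite open cover has an open shrinking such that every
point lies in at most n + 1 of its members. -/
def DimLE (X : Type) [TopologicalSpace X] (n : ℕ) : Prop :=
  ∀ (k : ℕ) (U : Fin k → Set X), (∀ i, IsOpen (U i)) → (⋃ i, U i) = univ →
    ∃ V : Fin k → Set X, (∀ i, IsOpen (V i)) ∧ (∀ i, V i ⊆ U i) ∧ (⋃ i, V i) = univ ∧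
      ∀ x : X, {i | x ∈ V i}.ncard ≤ n + 1

/-- Covering dimension exactly n. -/
def HasDim (X : Type) [TopologicalSpace X] (n : ℕ) : Prop :=
  DimLE X n ∧ ∀ m, m < n → ¬ DimLE X m

/-- The homothety with ratio 1/2 and centre c. -/
noncomputable def half (c z : ℝ × ℝ) : ℝ × ℝ := (1 / 2 : ℝ) • (z + c)

/-- Stage 0 is the full triangle with vertices (0,0), (1,0), (0,1); stage k + 1 is the union of
the three half-size copies of stage k at the three vertices. -/
noncomputable def stage : ℕ → Set (ℝ × ℝ)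
  | 0 => {z | 0 ≤ z.1 ∧ 0 ≤ z.2 ∧ z.1 + z.2 ≤ 1}
  | (k + 1) => half (0, 0) '' stage k ∪ half (1, 0) '' stage k ∪ half (0, 1) '' stage k

/-- The Sierpinski gasket, the intersection of all stages. -/
noncomputable def gasket : Set (ℝ × ℝ) := ⋂ k, stage k

/-- The wedge of the pointed space (Y, p) with the gasket, attached at its corner (0,0): the
subspace Y × {(0,0)} ∪ {p} × gasket of the product. -/
def wedge (Y : Type) (p : Y) : Set (Y × (ℝ × ℝ)) :=
  {z | z.2 ∈ gasket ∧ (z.1 = p ∨ z.2 = (0, 0))}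

/-- A continuous map all of whose fibres are connected and nonempty, that is, a monotone
continuous surjection. -/
def MonotoneMap {X Z : Type} [TopologicalSpace X] [TopologicalSpace Z] (f : X → Z) : Prop :=
  Continuous f ∧ Function.Surjective f ∧ ∀ z, IsConnected (f ⁻¹' {z})

/-- X is homeomorphic to the inverse limit of a sequence of polyhedra (spaces of finite simplicial
complexes, of arbitrary dimensions) with monotone continuous surjections as bonding maps. -/
def IsMonotoneLimitOfPolyhedra (X : Type) [TopologicalSpace X] : Prop :=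
  ∃ (m : ℕ → ℕ) (K : ∀ k, Geometry.SimplicialComplex ℝ (EuclideanSpace ℝ (Fin (m k))))
    (f : ∀ k, (K (k + 1)).space → (K k).space),
    (∀ k, (K k).faces.Finite) ∧ (∀ k, MonotoneMap (f k)) ∧
    Nonempty (X ≃ₜ {x : ∀ k, (K k).space // ∀ k, f k (x (k + 1)) = x k})

/-- The square. -/
def square : Set (ℝ × ℝ) := Icc (-1 : ℝ) 0 ×ˢ Icc (-1 : ℝ) 0

theorem stage_eq (k : ℕ) : stage k = Pool.Agent.Lib.MP_dce2ef.stage k := by
  induction k with
  | zero => rfl
  | succ k ih =>
    have h : ∀ i, Pool.Agent.Lib.MP_dce2ef.S i = half (Pool.Agent.Lib.MP_dce2ef.corner i) :=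
      fun i => rfl
    rw [stage, Pool.Agent.Lib.MP_dce2ef.stage, ih]
    ext z
    simp only [mem_union, mem_iUnion, h]
    constructor
    · rintro ((hz | hz) | hz)
      · exact ⟨0, hz⟩
      · exact ⟨1, hz⟩
      · exact ⟨2, hz⟩
    · rintro ⟨i, hz⟩
      fin_cases i
      · exact Or.inl (Or.inl hz)
      · exact Or.inl (Or.inr hz)
      · exact Or.inr hz

theorem gasket_eq : gasket = Pool.Agent.Lib.MP_dce2ef.G := by
  simp only [gasket, Pool.Agent.Lib.MP_dce2ef.G, stage_eq]

theorem wedge_eq (Y : Type) (p : Y) : wedge Y p = Pool.Agent.Lib.MP_dce2ef.wedge Y p := by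
  simp only [wedge, Pool.Agent.Lib.MP_dce2ef.wedge, gasket_eq]

theorem dimLE_mono (X : Type) [TopologicalSpace X] {m n : ℕ} (hmn : m ≤ n) (h : DimLE X m) :
    DimLE X n := by
  intro k U hU hcov
  obtain ⟨V, h1, h2, h3, h4⟩ := h k U hU hcov
  exact ⟨V, h1, h2, h3, fun x => (h4 x).trans (by omega)⟩

theorem constant_on_gasket {Y : Type} [MetricSpace Y] [CompactSpace Y] [ConnectedSpace Y] (p : Y)
    (m : ℕ) (K : Geometry.SimplicialComplex ℝ (EuclideanSpace ℝ (Fin m))) (hK : K.faces.Finite)
    (f : Pool.Agent.Lib.MP_dce2ef.wedge Y p → K.space) (hf : MonotoneMap f)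
    (a b : Pool.Agent.Lib.MP_dce2ef.wedge Y p) (ha : a.1.1 = p) (hb : b.1.1 = p) : f a = f b := by
  refine Pool.Agent.Lib.MP_dce2ef.constant_on_gasket_wedge
    ((fun s : Finset (EuclideanSpace ℝ (Fin m)) =>
      convexHull ℝ (s : Set (EuclideanSpace ℝ (Fin m)))) '' K.faces) (hK.image _) ?_ K.space ?_
    f hf.1 hf.2.2 a b ha hb
  · rintro _ ⟨s, -, rfl⟩
    exact ⟨s.finite_toSet.isCompact_convexHull ℝ, convex_convexHull ℝ _⟩
  · rw [Set.sUnion_image]
    rfl

theorem compactSpace_space (m : ℕ) (K : Geometry.SimplicialComplex ℝ (EuclideanSpace ℝ (Fin m)))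
    (hK : K.faces.Finite) : CompactSpace K.space := by
  apply isCompact_iff_compactSpace.1
  rw [Geometry.SimplicialComplex.space]
  exact hK.isCompact_biUnion (fun s _ => s.finite_toSet.isCompact_convexHull ℝ)

theorem not_limit {Y : Type} [MetricSpace Y] [CompactSpace Y] [ConnectedSpace Y] (p : Y) :
    ¬ IsMonotoneLimitOfPolyhedra (Pool.Agent.Lib.MP_dce2ef.wedge Y p) := by
  rintro ⟨m, K, f, hfin, hf, ⟨h⟩⟩
  have hcompact : ∀ k, CompactSpace (K k).space := fun k => compactSpace_space _ _ (hfin k)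
  let a : Pool.Agent.Lib.MP_dce2ef.wedge Y p :=
    ⟨(p, Pool.Agent.Lib.MP_dce2ef.corner 0), Pool.Agent.Lib.MP_dce2ef.corner_mem_G 0, Or.inl rfl⟩
  let b : Pool.Agent.Lib.MP_dce2ef.wedge Y p :=
    ⟨(p, Pool.Agent.Lib.MP_dce2ef.corner 1), Pool.Agent.Lib.MP_dce2ef.corner_mem_G 1, Or.inl rfl⟩
  have hne : ∀ k, Nonempty (K k).space := fun k => ⟨(h a).1 k⟩
  obtain ⟨π, hπc, hπf, hπi⟩ := Pool.Agent.Lib.MP_dce2ef.projections
    (P := fun k => (K k).space) f (fun k => (hf k).1) (fun k => (hf k).2.2) h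
  have hab : a = b := hπi a b (fun k => constant_on_gasket p (m k) (K k) (hfin k) (π k)
    ⟨hπc k, fun y => (hπf k y).nonempty, hπf k⟩ a b rfl rfl)
  have h1 : Pool.Agent.Lib.MP_dce2ef.corner 0 = Pool.Agent.Lib.MP_dce2ef.corner 1 :=
    congrArg (fun z : Pool.Agent.Lib.MP_dce2ef.wedge Y p => z.1.2) hab
  have h2 := congrArg Prod.fst h1
  simp [Pool.Agent.Lib.MP_dce2ef.corner] at h2

/-- Let n ≥ 2, let Y be any n-dimensional locally connected continuum and p a point of Y. Then the
wedge of (Y, p) with the Sierpinski gasket is an n-dimensional locally connected continuum, every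
monotone continuous surjection of it onto a polyhedron is constant on the gasket, and it is not
homeomorphic to any inverse limit of a sequence of polyhedra, of whatever dimensions, with monotone
continuous surjective bonding maps. For n = 2 such a Y exists, e.g. the square. -/
theorem result :
    (∀ n : ℕ, 2 ≤ n → ∀ (Y : Type) [MetricSpace Y] [CompactSpace Y] [ConnectedSpace Y]
      [LocallyConnectedSpace Y] (p : Y), HasDim Y n →
        CompactSpace (wedge Y p) ∧ ConnectedSpace (wedge Y p) ∧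
        LocallyConnectedSpace (wedge Y p) ∧ HasDim (wedge Y p) n ∧
        (∀ (m : ℕ) (K : Geometry.SimplicialComplex ℝ (EuclideanSpace ℝ (Fin m))),
          K.faces.Finite → ∀ f : wedge Y p → K.space, MonotoneMap f →
            ∀ a b : wedge Y p, a.1.1 = p → b.1.1 = p → f a = f b) ∧
        ¬ IsMonotoneLimitOfPolyhedra (wedge Y p)) ∧
    (CompactSpace square ∧ ConnectedSpace square ∧ LocallyConnectedSpace square ∧
      HasDim square 2) := by
  refine ⟨?_, ?_⟩
  · intro n hn Y _ _ _ _ p hY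
    rw [wedge_eq]
    refine ⟨inferInstance, inferInstance, inferInstance, ⟨?_, ?_⟩, ?_, not_limit p⟩
    · exact Pool.Agent.Lib.MP_dce2ef.orderLE_wedge (n + 1) (by omega) hY.1
    · intro m hm h
      exact hY.2 m hm (Pool.Agent.Lib.MP_dce2ef.orderLE_of_wedge (m + 1) h)
    · intro m K hK f hf a b ha hb
      exact constant_on_gasket p m K hK f hf a b ha hb
  · have h1 : square = Pool.Agent.Lib.MP_dce2ef.Q := rfl
    rw [h1]
    refine ⟨inferInstance, inferInstance, inferInstance, ?_, ?_⟩
    · exact Pool.Agent.Lib.MP_dce2ef.Q_orderLE_three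
    · intro m hm h
      exact Pool.Agent.Lib.MP_dce2ef.Q_not_orderLE_two
        (dimLE_mono _ (by omega : m ≤ 1) h)

end Pool.Agent.Results.MP_dce2ef_gt.GasketWedge
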